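import Mathlib
import Pool.Agent.UpLog.FA

set_option autoImplicit false

namespace Pool.Agent.Results.MP_bf81c2_nt.LogExponentAll

/-- For all integers `k, r` with `n ≤ k ^ r`, the number of extensions of degree `n` of a number
field `K` (inside its algebraic closure) with absolute discriminant at most `X` is
`O (X ^ ((k - 1/2) r + ε))`. -/
theorem result (K : Type) [Field K] [NumberField K] (n k r : ℕ) (hn : 2 ≤ n) (hk : 2 ≤ k)
    (hr : n ≤ k ^ r) (ε : ℝ) (hε : 0 < ε) :
    ∃ C : ℝ, 0 < C ∧ ∀ X : ℝ, 1 ≤ X →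
      {L : IntermediateField K (AlgebraicClosure K) | Module.finrank K L = n ∧
        ∃ h : NumberField L, ((|@NumberField.discr L _ h| : ℤ) : ℝ) ≤ X}.Finite ∧
      ((Set.ncard {L : IntermediateField K (AlgebraicClosure K) | Module.finrank K L = n ∧
        ∃ h : NumberField L, ((|@NumberField.discr L _ h| : ℤ) : ℝ) ≤ X} : ℕ) : ℝ) ≤
        C * X ^ (((k : ℝ) - 1 / 2) * r + ε) :=
  Pool.Agent.UpLog.final_A K n k r (by omega) (by omega) hr ε hε

end Pool.Agent.Results.MP_bf81c2_nt.LogExponentAll
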