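import Mathlib
import Pool.Agent.helper22.Uniform
import Pool.Agent.helper22.Final

set_option autoImplicit false

namespace Pool.Agent.Results.MP_bf81c2_nt.LowerExponent

open Pool.Agent.helper22

/-- The case of least prime factor at least `29`.

Proof idea: count monic polynomials `f` of degree `p` over the integers of a subfield `F` of
degree `n / p` over `K`, with roots at most `H`, lying in the square of an ideal `(P, x - r)`
with `P` a prime of norm about `H ^ (d p² / 8)`, where `d = [F : ℚ]`; then the discriminant of the
field is smaller than that of `f` by the factor `N(P)²`.  The lattices of such `f` are controlled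
through products of pairs of short polynomials of degree `(p-1)/2` in `(P Q, x - r)`, where a
second large prime `Q` is made to ramify.  The ramification at `Q`, together with the linear
Cauchy-Davenport theorem, shows that the integers of size at most `H` in the field generated
by a root of `f` span a space of dimension at most `k ≈ 3 √p` over `F`, which bounds the number
of times that each field is produced. -/
theorem large (K : Type) [Field K] [NumberField K] (n : ℕ) (hn : 29 ≤ n.minFac) :
    ∀ᶠ X : ℝ in Filter.atTop,
      X ^ ((1 : ℝ) / 2 + 4 / (3 * ((n.minFac : ℝ) + 2 * √(n.minFac : ℝ) - 5 / 2))) ≤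
        ((Set.ncard {L : IntermediateField K (AlgebraicClosure K) |
          Module.finrank K L = n ∧
            ∃ h : NumberField L, ((|@NumberField.discr L _ h| : ℤ) : ℝ) ≤ X} : ℕ) : ℝ) := by
  have hn2 : 2 ≤ n := by
    rcases n with _ | _ | n
    · rw [Nat.minFac_zero] at hn; omega
    · rw [zero_add, Nat.minFac_one] at hn; omega
    · omega
  have hp : n.minFac.Prime := Nat.minFac_prime (by omega)
  obtain ⟨j, hj⟩ : ∃ j, n.minFac = 2 * j + 1 := by
    rcases hp.eq_two_or_odd' with h | h
    · omega
    · exact h
  apply transfer_lower K n hn2
  intro F _ _
  rw [hj]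
  have h1 : (4 : ℝ) / (3 * (((2 * j + 1 : ℕ) : ℝ) + 2 * √((2 * j + 1 : ℕ) : ℝ) - 5 / 2)) =
      1 / (3 / 4 * (((2 * j + 1 : ℕ) : ℝ) + 2 * √((2 * j + 1 : ℕ) : ℝ) - 5 / 2)) := by
    rw [div_mul_eq_mul_div, one_div_div]
  rw [h1]
  exact uniform_lower j (by omega) (by rw [← hj]; exact hp) F (AlgebraicClosure K)

/-- Lower bound for the number of extensions of degree `n` of every number field `K`: with `p` the
least prime factor of `n`, the number of degree-`n` subextensions `L` of an algebraic closure of
`K` with absolute discriminant at most `X` is at least `c X ^ (1/2 + e p)` for all large `X`, where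
`c > 0` depends only on `K` and `n`, and `e p = 4 / (3 (p + 2 √p - 5/2))` if `p ≥ 29` and
`e p = 1 / p` if `p < 29`.

For small `p` the fields are generated by roots of monic Eisenstein polynomials; a doubling
inequality for the lattice of integers of `L`, together with the trivial bound for the number of
fields having a small generator, shows that for a positive proportion of these polynomials the
field determines the polynomial up to translation and boundedly many choices.  For large `p` the
polynomials are chosen in the square of an ideal `(P, x - r)`, see `large`. -/
theorem result : ∀ (K : Type) [Field K] [NumberField K] (n : ℕ), 2 ≤ n →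
    ∃ c : ℝ, 0 < c ∧ ∀ᶠ X : ℝ in Filter.atTop,
      c * X ^ ((1 : ℝ) / 2 +
        (if 29 ≤ n.minFac then 4 / (3 * ((n.minFac : ℝ) + 2 * √(n.minFac : ℝ) - 5 / 2))
          else 1 / (n.minFac : ℝ))) ≤
        ((Set.ncard {L : IntermediateField K (AlgebraicClosure K) |
          Module.finrank K L = n ∧
            ∃ h : NumberField L, ((|@NumberField.discr L _ h| : ℤ) : ℝ) ≤ X} : ℕ) : ℝ) := by
  intro K _ _ n hn
  split_ifs with h
  · refine ⟨1, one_pos, ?_⟩
    filter_upwards [large K n h] with X hX
    rw [one_mul]
    exact hX
  · exact general_lower K n hn

end Pool.Agent.Results.MP_bf81c2_nt.LowerExponent
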