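import Mathlib
import Pool.Agent.SNO.FIN

set_option autoImplicit false

/-!
# Upper bounds for the number of fields of degree `n` over `ℚ`

Let `n ≤ s 2^ρ` and `1 ≤ d < n`. Fields `L` of degree `n` are counted which have no subfield of degree
strictly between `d` and `s`; if `n` has no divisor strictly between `d` and `s` these are all fields
of degree `n`.
-/

namespace Pool.Agent.Results.MP_bf81c2_nt.OrbitUpperBound

open NumberField Module

theorem result (n ρ d s : ℕ) (hρ : 1 ≤ ρ) (hd : 1 ≤ d) (hdn : d < n) (hs : n ≤ s * 2 ^ ρ) (ε : ℝ)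
    (hε : 0 < ε) :
    ∃ C : ℝ, 0 < C ∧ ∀ X : ℝ, 1 ≤ X →
      {L : IntermediateField ℚ (AlgebraicClosure ℚ) | finrank ℚ L = n ∧
        ((∀ t : ℕ, t ∣ n → t ≤ d ∨ s ≤ t) ∨
          ∀ F : IntermediateField ℚ L, finrank ℚ F ≤ d ∨ s ≤ finrank ℚ F) ∧
        ∃ h : NumberField L, ((|@NumberField.discr L _ h| : ℤ) : ℝ) ≤ X}.Finite ∧
      ((Set.ncard {L : IntermediateField ℚ (AlgebraicClosure ℚ) | finrank ℚ L = n ∧
        ((∀ t : ℕ, t ∣ n → t ≤ d ∨ s ≤ t) ∨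
          ∀ F : IntermediateField ℚ L, finrank ℚ F ≤ d ∨ s ≤ finrank ℚ F) ∧
        ∃ h : NumberField L, ((|@NumberField.discr L _ h| : ℤ) : ℝ) ≤ X} : ℕ) : ℝ) ≤
        C * X ^ (((∑ i ∈ Finset.range n, (i / 2 ^ ρ + 1) : ℕ) : ℝ) / (2 * ((n : ℝ) - d)) +
          3 / 2 * ρ + ε) := by
  obtain ⟨C, hC, h⟩ := SNO.final n ρ d s hρ hd hdn hs ε hε
  refine ⟨C, hC, fun X hX => ?_⟩
  have hset : {L : IntermediateField ℚ (AlgebraicClosure ℚ) | finrank ℚ L = n ∧
      ((∀ t : ℕ, t ∣ n → t ≤ d ∨ s ≤ t) ∨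
        ∀ F : IntermediateField ℚ L, finrank ℚ F ≤ d ∨ s ≤ finrank ℚ F) ∧
      ∃ h : NumberField L, ((|@NumberField.discr L _ h| : ℤ) : ℝ) ≤ X} =
      {L : IntermediateField ℚ (AlgebraicClosure ℚ) | finrank ℚ L = n ∧
        (∀ F : IntermediateField ℚ L, finrank ℚ F ≤ d ∨ s ≤ finrank ℚ F) ∧
        ∃ h : NumberField L, ((|@NumberField.discr L _ h| : ℤ) : ℝ) ≤ X} := by
    ext L
    constructor
    · rintro ⟨hL, h1, h2⟩
      refine ⟨hL, ?_, h2⟩
      rcases h1 with h1 | h1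
      · intro F
        apply h1
        have := Module.finrank_mul_finrank ℚ F L
        rw [hL] at this
        exact ⟨_, this.symm⟩
      · exact h1
    · rintro ⟨hL, h1, h2⟩
      exact ⟨hL, Or.inr h1, h2⟩
  rw [hset]
  exact h X hX

end Pool.Agent.Results.MP_bf81c2_nt.OrbitUpperBound
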